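import Pool.Agent.TH997.SP.Cons

set_option autoImplicit false

/-!
# Systems of linear recurrences outside a sparse set

Boolean combinations of the zero sets of several integer linear recurrence sequences, outside the
sparse set `RR F H` of the starting files.
-/

namespace Pool.Agent.K3h77.SK

open Finset Pool.Agent.H692R2.USS Pool.Agent.TH997.US Pool.Agent.TH997.SP
open scoped Classical
open Pool.Agent.Helper446.RE (cp_eq cp_le cp_lt cp_comp cite computable_of_graph)

/-- the type of the inputs -/
abbrev Inp := List ℤ × List ℤ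

/-- the `i`-th input of a list -/
def gp (L : List Inp) (i : ℕ) : Inp := L.getD i ([], [])

/-- the zeros of a sequence: the isolated zeros and the zero classes -/
theorem zero_iff {p : Inp} (hp : Val (cv p)) (n : ℕ) :
    sq (cv p) n = 0 ↔ Spor (cv p) n ∨ ¬ nz (cv p) (n % Tf (cv p)) := by
  constructor
  · intro h
    by_cases hz : nz (cv p) (n % Tf (cv p))
    · exact Or.inl ⟨hp, (iv_eq_zero _).1 h, hz⟩
    · exact Or.inr hz
  · rintro (h | h)
    · exact (iv_eq_zero _).2 h.2.1
    · have h1 := zero_class hp h (n / Tf (cv p))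
      rwa [Nat.mod_add_div] at h1

/-- the numbers `n` at which all sequences of the first list vanish and no sequence of the second
list vanishes -/
def Cond (x : List Inp × List Inp) (n : ℕ) : Prop :=
  (∀ i < x.1.length, sq (cv (gp x.1 i)) n = 0) ∧ ∀ i < x.2.length, sq (cv (gp x.2 i)) n ≠ 0

/-- the same for almost all numbers of the class of `r` -/
def MCond (x : List Inp × List Inp) (r : ℕ) : Prop :=
  (∀ i < x.1.length, ¬ nz (cv (gp x.1 i)) (r % Tf (cv (gp x.1 i)))) ∧
    ∀ i < x.2.length, nz (cv (gp x.2 i)) (r % Tf (cv (gp x.2 i)))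

/-- the common modulus -/
noncomputable def TT (x : List Inp × List Inp) : ℕ :=
  (∏ i ∈ range x.1.length, Tf (cv (gp x.1 i))) * ∏ i ∈ range x.2.length, Tf (cv (gp x.2 i))

/-- the common bound -/
noncomputable def MM (F H : ℕ → ℕ) (x : List Inp × List Inp) : ℕ :=
  (∑ i ∈ range x.1.length, NN F H (Encodable.encode (gp x.1 i))) +
    ∑ i ∈ range x.2.length, NN F H (Encodable.encode (gp x.2 i))

/-- all inputs are valid -/
def AllVal (x : List Inp × List Inp) : Prop :=
  (∀ i < x.1.length, Val (cv (gp x.1 i))) ∧ ∀ i < x.2.length, Val (cv (gp x.2 i))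

theorem TT_pos (x : List Inp × List Inp) : 1 ≤ TT x :=
  Nat.mul_pos (Finset.prod_pos fun _ _ => Tf_pos _) (Finset.prod_pos fun _ _ => Tf_pos _)

theorem dvd1 (x : List Inp × List Inp) {i : ℕ} (hi : i < x.1.length) :
    Tf (cv (gp x.1 i)) ∣ TT x :=
  Dvd.dvd.mul_right (Finset.dvd_prod_of_mem (fun i => Tf (cv (gp x.1 i))) (mem_range.2 hi)) _

theorem dvd2 (x : List Inp × List Inp) {i : ℕ} (hi : i < x.2.length) :
    Tf (cv (gp x.2 i)) ∣ TT x :=
  Dvd.dvd.mul_left (Finset.dvd_prod_of_mem (fun i => Tf (cv (gp x.2 i))) (mem_range.2 hi)) _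

section
variable {F H : ℕ → ℕ} (hmono : Monotone F) (hunb : ∀ B, ∃ N, B ≤ F N)
include hmono hunb

theorem late {p : Inp} (hp : Val (cv p)) {n : ℕ} (hn : ¬ RR F H n)
    (hN : NN F H (Encodable.encode p) ≤ n) :
    sq (cv p) n = 0 ↔ ¬ nz (cv p) (n % Tf (cv p)) := by
  rw [zero_iff hp]
  refine ⟨fun h => h.resolve_left fun hS => ?_, Or.inr⟩
  have := small (H := H) (j := Encodable.encode p) hmono hunb hn (by rw [DD_encode]; exact hS)
  omega

omit hmono hunb in
theorem le_M1 (x : List Inp × List Inp) {i : ℕ} (hi : i < x.1.length) :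
    NN F H (Encodable.encode (gp x.1 i)) ≤ MM F H x :=
  (Finset.single_le_sum (f := fun i => NN F H (Encodable.encode (gp x.1 i)))
    (fun _ _ => Nat.zero_le _) (mem_range.2 hi)).trans (Nat.le_add_right _ _)

omit hmono hunb in
theorem le_M2 (x : List Inp × List Inp) {i : ℕ} (hi : i < x.2.length) :
    NN F H (Encodable.encode (gp x.2 i)) ≤ MM F H x :=
  (Finset.single_le_sum (f := fun i => NN F H (Encodable.encode (gp x.2 i)))
    (fun _ _ => Nat.zero_le _) (mem_range.2 hi)).trans (Nat.le_add_left _ _)

/-- beyond the bound the condition depends on the class only -/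
theorem late_cond {x : List Inp × List Inp} (hx : AllVal x) {n : ℕ} (hn : ¬ RR F H n)
    (hN : MM F H x ≤ n) : Cond x n ↔ MCond x (n % TT x) := by
  unfold Cond MCond
  refine and_congr (forall_congr' fun i => forall_congr' fun hi => ?_)
    (forall_congr' fun i => forall_congr' fun hi => ?_)
  · rw [late hmono hunb (hx.1 i hi) hn ((le_M1 x hi).trans hN), Nat.mod_mod_of_dvd _ (dvd1 x hi)]
  · rw [Ne, late hmono hunb (hx.2 i hi) hn ((le_M2 x hi).trans hN), not_not,
      Nat.mod_mod_of_dvd _ (dvd2 x hi)]

/-- outside the sparse set there are arbitrarily large numbers in every class -/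
theorem meets_late (hlog : ∀ N, F N ≤ Nat.log 2 N) {T : ℕ} (hT : 1 ≤ T) {r : ℕ} (hr : r < T)
    (N : ℕ) : ∃ n, N ≤ n ∧ n % T = r ∧ ¬ RR F H n := by
  have h1 : r + T * N < T * (N + 1) := by
    rw [mul_add, mul_one]
    omega
  obtain ⟨l, hl⟩ := meets' (H := H) hlog (T := T * (N + 1)) (by nlinarith)
    (RR_card (H := H) hmono hunb) (r + T * N) h1
  refine ⟨_, ?_, ?_, hl⟩
  · have h2 : N ≤ T * N := Nat.le_mul_of_pos_left _ hT
    have h3 : 0 ≤ T * (N + 1) * l := Nat.zero_le _
    omega
  · rw [show r + T * N + T * (N + 1) * l = r + T * (N + (N + 1) * l) by ring,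
      Nat.add_mul_mod_self_left, Nat.mod_eq_of_lt hr]

/-- the criterion for the existence -/
theorem cond_iff (hlog : ∀ N, F N ≤ Nat.log 2 N) {x : List Inp × List Inp} (hx : AllVal x) :
    (∃ n, ¬ RR F H n ∧ Cond x n) ↔
      (∃ n < MM F H x, ¬ RR F H n ∧ Cond x n) ∨ ∃ r < TT x, MCond x r := by
  constructor
  · rintro ⟨n, hn, hc⟩
    by_cases hN : MM F H x ≤ n
    · exact Or.inr ⟨n % TT x, Nat.mod_lt _ (TT_pos x), (late_cond hmono hunb hx hn hN).1 hc⟩
    · exact Or.inl ⟨n, by omega, hn, hc⟩
  · rintro (⟨n, _, hn, hc⟩ | ⟨r, hr, hc⟩)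
    · exact ⟨n, hn, hc⟩
    · obtain ⟨n, hN, hm, hn⟩ := meets_late (H := H) hmono hunb hlog (TT_pos x) hr (MM F H x)
      refine ⟨n, hn, (late_cond hmono hunb hx hn hN).2 ?_⟩
      rwa [hm]

/-- the criterion for infinitely many -/
theorem inf_iff (hlog : ∀ N, F N ≤ Nat.log 2 N) {x : List Inp × List Inp} (hx : AllVal x) :
    (∀ N, ∃ n, N ≤ n ∧ ¬ RR F H n ∧ Cond x n) ↔ ∃ r < TT x, MCond x r := by
  constructor
  · intro h
    obtain ⟨n, hN, hn, hc⟩ := h (MM F H x)
    exact ⟨n % TT x, Nat.mod_lt _ (TT_pos x), (late_cond hmono hunb hx hn hN).1 hc⟩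
  · rintro ⟨r, hr, hc⟩ N
    obtain ⟨n, hN, hm, hn⟩ := meets_late (H := H) hmono hunb hlog (TT_pos x) hr (max N (MM F H x))
    refine ⟨n, (le_max_left _ _).trans hN, hn,
      (late_cond hmono hunb hx hn ((le_max_right _ _).trans hN)).2 ?_⟩
    rwa [hm]

end

/-! ### computability -/

theorem cgp {α : Type} [Primcodable α] {L : α → List Inp} {i : α → ℕ} (hL : Computable L)
    (hi : Computable i) : Computable fun x => gp (L x) (i x) :=
  ((Primrec.list_getD (α := Inp) ([], [])).to_comp).comp hL hi

theorem cTfcv : Computable fun p : Inp => Tf (cv p) := cTf.comp computable_cv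

theorem cp_zero : ComputablePred (fun x : Inp × ℕ => sq (cv x.1) x.2 = 0) := by
  have h1 : Computable fun x : Inp × ℕ => vv (cv x.1) x.2 :=
    cvv (computable_cv.comp Computable.fst) Computable.snd
  have h2 : ComputablePred (fun x : Inp × ℕ => (vv (cv x.1) x.2).1 = (vv (cv x.1) x.2).2) :=
    cp_eq (by fun_prop) (by fun_prop)
  refine h2.of_eq fun x => ?_
  rw [sq_eq, iv_eq_zero]

theorem cp_nzm : ComputablePred (fun x : Inp × ℕ => nz (cv x.1) (x.2 % Tf (cv x.1))) := by
  have h1 : Computable fun x : Inp × ℕ => x.2 % Tf (cv x.1) :=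
    (Primrec.nat_mod.to_comp).comp Computable.snd (cTfcv.comp Computable.fst)
  exact cp_comp cp_nz (f := fun x : Inp × ℕ => (cv x.1, x.2 % Tf (cv x.1)))
    ((computable_cv.comp Computable.fst).pair h1)

/-- computability of a condition on all members of a list -/
theorem cp_forall {α : Type} [Primcodable α] {P : Inp × α → Prop} (hP : ComputablePred P)
    {L : α → List Inp} (hL : Computable L) :
    ComputablePred (fun x : α => ∀ i < (L x).length, P (gp (L x) i, x)) := by
  refine cp_all (p := fun (x : α) i => P (gp (L x) i, x)) ?_ (Computable.list_length.comp hL)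
  exact cp_comp hP (f := fun y : α × ℕ => (gp (L y.1) y.2, y.1))
    ((cgp (hL.comp Computable.fst) Computable.snd).pair Computable.fst)

theorem cp_AllVal : ComputablePred AllVal := by
  have h1 : ComputablePred (fun x : Inp × (List Inp × List Inp) => Val (cv x.1)) :=
    cp_comp cp_val (f := fun x : Inp × (List Inp × List Inp) => cv x.1)
      (computable_cv.comp Computable.fst)
  exact cp_and (cp_forall h1 Computable.fst) (cp_forall h1 Computable.snd)

theorem cp_Cond : ComputablePred (fun x : (List Inp × List Inp) × ℕ => Cond x.1 x.2) := by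
  have h1 : ComputablePred (fun x : Inp × ((List Inp × List Inp) × ℕ) => sq (cv x.1) x.2.2 = 0) :=
    cp_comp cp_zero (f := fun x : Inp × ((List Inp × List Inp) × ℕ) => (x.1, x.2.2))
      (Computable.fst.pair (Computable.snd.comp Computable.snd))
  exact cp_and (cp_forall h1 (Computable.fst.comp Computable.fst))
    (cp_forall (ComputablePred.not h1) (Computable.snd.comp Computable.fst))

theorem cp_MCond : ComputablePred (fun x : (List Inp × List Inp) × ℕ => MCond x.1 x.2) := by
  have h1 : ComputablePred (fun x : Inp × ((List Inp × List Inp) × ℕ) =>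
      nz (cv x.1) (x.2.2 % Tf (cv x.1))) :=
    cp_comp cp_nzm (f := fun x : Inp × ((List Inp × List Inp) × ℕ) => (x.1, x.2.2))
      (Computable.fst.pair (Computable.snd.comp Computable.snd))
  exact cp_and (cp_forall (ComputablePred.not h1) (Computable.fst.comp Computable.fst))
    (cp_forall h1 (Computable.snd.comp Computable.fst))

theorem cTT : Computable TT := by
  have h1 : Computable fun x : List Inp × List Inp =>
      ∏ i ∈ range x.1.length, Tf (cv (gp x.1 i)) :=
    cprod (g := fun (x : List Inp × List Inp) i => Tf (cv (gp x.1 i)))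
      (cTfcv.comp (cgp (Computable.fst.comp Computable.fst) Computable.snd))
      (Computable.list_length.comp Computable.fst)
  have h2 : Computable fun x : List Inp × List Inp =>
      ∏ i ∈ range x.2.length, Tf (cv (gp x.2 i)) :=
    cprod (g := fun (x : List Inp × List Inp) i => Tf (cv (gp x.2 i)))
      (cTfcv.comp (cgp (Computable.snd.comp Computable.fst) Computable.snd))
      (Computable.list_length.comp Computable.snd)
  exact (Primrec.nat_mul.to_comp).comp h1 h2

section
variable {F H : ℕ → ℕ} (hF : Computable F) (hH : Computable H) (hmono : Monotone F)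
  (hunb : ∀ B, ∃ N, B ≤ F N)
include hF hH hmono hunb

theorem cMM : Computable (MM F H) := by
  have hN := cNN hF hH hmono hunb
  have h1 : Computable fun x : List Inp × List Inp =>
      ∑ i ∈ range x.1.length, NN F H (Encodable.encode (gp x.1 i)) :=
    csum (g := fun (x : List Inp × List Inp) i => NN F H (Encodable.encode (gp x.1 i)))
      (hN.comp (Computable.encode.comp (cgp (Computable.fst.comp Computable.fst) Computable.snd)))
      (Computable.list_length.comp Computable.fst)
  have h2 : Computable fun x : List Inp × List Inp =>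
      ∑ i ∈ range x.2.length, NN F H (Encodable.encode (gp x.2 i)) :=
    csum (g := fun (x : List Inp × List Inp) i => NN F H (Encodable.encode (gp x.2 i)))
      (hN.comp (Computable.encode.comp (cgp (Computable.snd.comp Computable.fst) Computable.snd)))
      (Computable.list_length.comp Computable.snd)
  exact (Primrec.nat_add.to_comp).comp h1 h2

theorem cp_sys (hlog : ∀ N, F N ≤ Nat.log 2 N) :
    ComputablePred (fun x : List Inp × List Inp => AllVal x ∧ ∃ n, ¬ RR F H n ∧ Cond x n) := by
  have hR := cp_RR hF hH hmono hunb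
  have h1 : ComputablePred (fun x : List Inp × List Inp => AllVal x ∧
      ((∃ n < MM F H x, ¬ RR F H n ∧ Cond x n) ∨ ∃ r < TT x, MCond x r)) := by
    refine cp_and cp_AllVal (cp_or ?_ ?_)
    · exact cp_ex (p := fun (x : List Inp × List Inp) n => ¬ RR F H n ∧ Cond x n)
        (cp_and (ComputablePred.not (cp_comp hR Computable.snd)) cp_Cond) (cMM hF hH hmono hunb)
    · exact cp_ex (p := fun (x : List Inp × List Inp) r => MCond x r) cp_MCond cTT
  exact h1.of_eq fun x => and_congr_right fun hx => (cond_iff hmono hunb hlog hx).symm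

theorem cp_sys_inf (hlog : ∀ N, F N ≤ Nat.log 2 N) :
    ComputablePred (fun x : List Inp × List Inp =>
      AllVal x ∧ ∀ N, ∃ n, N ≤ n ∧ ¬ RR F H n ∧ Cond x n) := by
  have h1 : ComputablePred (fun x : List Inp × List Inp => AllVal x ∧ ∃ r < TT x, MCond x r) :=
    cp_and cp_AllVal (cp_ex (p := fun (x : List Inp × List Inp) r => MCond x r) cp_MCond cTT)
  exact h1.of_eq fun x => and_congr_right fun hx => (inf_iff hmono hunb hlog hx).symm

end

end Pool.Agent.K3h77.SK
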