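import Pool.Agent.K3h77.SK.Bool

set_option autoImplicit false

/-!
# Computable lists, and the complete description of the zeros outside the sparse set
-/

namespace Pool.Agent.K3h77.SK

open Finset Pool.Agent.H692R2.USS Pool.Agent.TH997.US Pool.Agent.TH997.SP
open scoped Classical
open Pool.Agent.Helper446.RE (cp_eq cp_le cp_lt cp_comp cite computable_of_graph)

/-- the list of the numbers below a computable bound with a decidable property -/
theorem exists_filter {α : Type} [Primcodable α] {P : α → ℕ → Prop}
    (hP : ComputablePred (fun x : α × ℕ => P x.1 x.2)) {f : α → ℕ} (hf : Computable f) :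
    ∃ A : α → List ℕ, Computable A ∧ ∀ a n, n ∈ A a ↔ n < f a ∧ P a n := by
  refine ⟨fun a => Nat.rec [] (fun n L => if P a n then n :: L else L) (f a), ?_, ?_⟩
  · refine Computable.nat_rec (f := f) (g := fun _ => ([] : List ℕ))
      (h := fun (a : α) (y : ℕ × List ℕ) => if P a y.1 then y.1 :: y.2 else y.2)
      hf (Computable.const _) ?_
    refine cite (p := fun x : α × (ℕ × List ℕ) => P x.1 x.2.1) ?_ ?_ ?_
    · exact cp_comp hP (f := fun x : α × (ℕ × List ℕ) => (x.1, x.2.1)) (by fun_prop)
    · exact Computable.list_cons.comp (Computable.fst.comp Computable.snd)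
        (Computable.snd.comp Computable.snd)
    · exact Computable.snd.comp Computable.snd
  · intro p n
    show n ∈ (Nat.rec [] (fun n L => if P p n then n :: L else L) (f p) : List ℕ) ↔ _
    generalize f p = N
    induction N with
    | zero => simp
    | succ N ih =>
      show n ∈ (if P p N then N :: (Nat.rec [] (fun n L => if P p n then n :: L else L) N : List ℕ)
        else (Nat.rec [] (fun n L => if P p n then n :: L else L) N : List ℕ)) ↔ _
      split_ifs with h
      · rw [List.mem_cons, ih]
        constructor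
        · rintro (rfl | ⟨h1, h2⟩)
          · exact ⟨Nat.lt_succ_self _, h⟩
          · exact ⟨by omega, h2⟩
        · rintro ⟨h1, h2⟩
          rcases Nat.lt_succ_iff_lt_or_eq.1 h1 with h3 | h3
          · exact Or.inr ⟨h3, h2⟩
          · exact Or.inl h3
      · rw [ih]
        constructor
        · rintro ⟨h1, h2⟩
          exact ⟨by omega, h2⟩
        · rintro ⟨h1, h2⟩
          rcases Nat.lt_succ_iff_lt_or_eq.1 h1 with h3 | h3
          · exact ⟨h3, h2⟩
          · rw [h3] at h2
            exact absurd h2 h

section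
variable {F H : ℕ → ℕ} (hF : Computable F) (hH : Computable H) (hmono : Monotone F)
  (hunb : ∀ B, ∃ N, B ≤ F N)
include hF hH hmono hunb

/-- all the zeros outside the sparse set -/
theorem exists_descr : ∃ (A B : Inp → List ℕ) (T : Inp → ℕ), Computable A ∧ Computable B ∧
    Computable T ∧ ∀ p, Val (cv p) → (∀ n, n ∈ A p ↔ ¬ RR F H n ∧ Spor (cv p) n) ∧ 0 < T p ∧
      ∀ n, ¬ RR F H n → (sq (cv p) n = 0 ↔ n ∈ A p ∨ n % T p ∈ B p) := by
  obtain ⟨A, hA, h⟩ := exists_list hF hH hmono hunb
  obtain ⟨B, hB, h'⟩ := exists_filter (P := fun (p : Inp) r => ¬ nz (cv p) r)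
    (f := fun p => Tf (cv p)) (ComputablePred.not (cp_comp cp_nz
      (f := fun x : Inp × ℕ => (cv x.1, x.2))
        ((computable_cv.comp Computable.fst).pair Computable.snd))) cTfcv
  refine ⟨A, B, fun p => Tf (cv p), hA, hB, cTfcv, fun p hp => ⟨h p, Tf_pos _, fun n hn => ?_⟩⟩
  rw [zero_iff hp, h, h']
  constructor
  · rintro (hS | hz)
    · exact Or.inl ⟨hn, hS⟩
    · exact Or.inr ⟨Nat.mod_lt _ (Tf_pos _), hz⟩
  · rintro (hS | hz)
    · exact Or.inl hS.2
    · exact Or.inr hz.2

end

end Pool.Agent.K3h77.SK
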